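import Pool.Agent.H566R4.Stmts

set_option autoImplicit false

namespace Pool.Agent.H352.BOG

open Polynomial Module Pool.Agent.H566R4

variable {k : Type} [Field k]

lemma fd (n : ℕ) : FiniteDimensional k (degreeLT k n) :=
  Module.Finite.equiv (degreeLTEquiv k n).symm

lemma fr (n : ℕ) : finrank k (degreeLT k n) = n := by
  rw [(degreeLTEquiv k n).finrank_eq]; simp

lemma inj_mul (g : k[X]) (hg : g ≠ 0) : Function.Injective (LinearMap.mulLeft k g) :=
  fun a b h => mul_left_cancel₀ hg h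

lemma fr_map (g : k[X]) (hg : g ≠ 0) (n : ℕ) :
    finrank k ((degreeLT k n).map (LinearMap.mulLeft k g)) = n := by
  rw [← (Submodule.equivMapOfInjective _ (inj_mul g hg) (degreeLT k n)).finrank_eq, fr]

lemma step (g : k[X]) (m : ℕ) (hm : 1 ≤ m) (V W : Submodule k k[X])
    (h0 : (degreeLT k m).map (LinearMap.mulLeft k g) ≤ V) (h1 : V ≤ W)
    (h2 : V.map (mX k) ≤ W) : (degreeLT k (m + 1)).map (LinearMap.mulLeft k g) ≤ W := by
  rintro _ ⟨p, hp, rfl⟩
  have hp' : ∀ i, m + 1 ≤ i → p.coeff i = 0 := by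
    have := mem_degreeLT.mp hp
    exact (degree_lt_iff_coeff_zero p (m + 1)).mp (by exact_mod_cast this)
  have e : LinearMap.mulLeft k g p = mX k (LinearMap.mulLeft k g (divX p)) +
      LinearMap.mulLeft k g (C (p.coeff 0)) := by
    simp only [mX, LinearMap.mulLeft_apply]
    conv_lhs => rw [← divX_mul_X_add p]
    ring
  rw [e]
  refine add_mem (h2 ⟨_, h0 ⟨divX p, ?_, rfl⟩, rfl⟩) (h1 (h0 ⟨C (p.coeff 0), ?_, rfl⟩))
  · refine mem_degreeLT.mpr ((degree_lt_iff_coeff_zero _ _).mpr fun i hi => ?_)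
    rw [coeff_divX]
    exact hp' _ (by omega)
  · refine mem_degreeLT.mpr ((degree_lt_iff_coeff_zero _ _).mpr fun i hi => ?_)
    rw [coeff_C, if_neg (by omega)]

lemma up (U : ℕ → Submodule k k[X]) (h : ∀ n, U n ≤ U (n + 1)) (d j : ℕ) : U d ≤ U (d + j) := by
  induction j with
  | zero => exact le_refl _
  | succ j ih => exact ih.trans (h _)

lemma upX (U : ℕ → Submodule k k[X]) (h : ∀ n, (U n).map (mX k) ≤ U (n + 1)) (d j : ℕ)
    (f : k[X]) (hf : f ∈ U d) : X ^ j * f ∈ U (d + j) := by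
  induction j with
  | zero => simpa using hf
  | succ j ih =>
    have := h (d + j) ⟨_, ih, rfl⟩
    have e : X ^ (j + 1) * f = mX k (X ^ j * f) := by
      simp only [mX, LinearMap.mulLeft_apply]
      ring
    rw [e]
    exact this

theorem taskExc (hGM : TaskGM) : TaskExc := by
  intro k _ _ d b U Wt B hd hdq hb hbd hU1 hU2 hU3 h1 hXq f1 f2 f3 hW hf hB
  classical
  set q := Fintype.card k with hq
  obtain ⟨m, hm⟩ : ∃ m, m + b = q - 1 := ⟨q - 1 - b, by omega⟩
  have hm1 : 1 ≤ m := by omega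
  have fdU : ∀ n, FiniteDimensional k (U n) := fun n =>
    haveI := fd (k := k) (n + 1)
    Submodule.finiteDimensional_of_le (hU1 n)
  haveI := fdU
  have hVfr : finrank k (U (q - 2)) = m := by omega
  have hne : U (q - 2) ≠ ⊥ := by
    intro h0
    rw [h0, finrank_bot] at hVfr
    omega
  have hqq : q - 2 + 1 = q - 1 := by omega
  have hle : U (q - 2) ⊔ (U (q - 2)).map (mX k) ≤ U (q - 1) := by
    refine sup_le ?_ ?_
    · have := hU2 (q - 2); rwa [hqq] at this
    · have := hU3 (q - 2); rwa [hqq] at this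
  obtain ⟨-, hg⟩ := hGM k (U (q - 2)) hne
  obtain ⟨g, hg0, hgV⟩ := hg (by
    have := Submodule.finrank_mono hle
    omega)
  rw [hVfr] at hgV
  -- the spaces g * degreeLT
  have hG1 : (degreeLT k (m + 1)).map (LinearMap.mulLeft k g) ≤ U (q - 1) :=
    step g m hm1 (U (q - 2)) (U (q - 1)) hgV.ge (le_sup_left.trans hle) (le_sup_right.trans hle)
  have hqq2 : q - 1 + 1 = q := by omega
  have hG2 : (degreeLT k (m + 2)).map (LinearMap.mulLeft k g) ≤ U q := by
    refine step g (m + 1) (by omega) (U (q - 1)) (U q) hG1 ?_ ?_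
    · have := hU2 (q - 1); rwa [hqq2] at this
    · have := hU3 (q - 1); rwa [hqq2] at this
  set G' := (degreeLT k (m + 2)).map (LinearMap.mulLeft k g) with hG'
  haveI fdG : FiniteDimensional k G' := Submodule.finiteDimensional_of_le hG2
  have hG'fr : finrank k G' = m + 2 := fr_map g hg0 _
  -- the pair 1, X^q
  set P : Submodule k k[X] := Submodule.span k {(1 : k[X]), X ^ q} with hP
  have hqpos : 0 < q := by omega
  have hPfr : finrank k P = 2 := by
    have hli : LinearIndependent k ![(1 : k[X]), X ^ q] := by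
      rw [LinearIndependent.pair_iff]
      intro s t hst
      have h0 := congrArg (fun p => coeff p 0) hst
      have h2 := congrArg (fun p => coeff p q) hst
      have hq0 : ¬ (0 = q) := by omega
      have hq1 : ¬ (q = 0) := by omega
      simp only [coeff_add, coeff_smul, coeff_one, coeff_X_pow, coeff_zero, smul_eq_mul,
        if_neg hq0, if_neg hq1, if_true, mul_one, mul_zero, add_zero, zero_add] at h0 h2
      exact ⟨h0, h2⟩
    have := finrank_span_eq_card hli
    have hr : Set.range ![(1 : k[X]), X ^ q] = {(1 : k[X]), X ^ q} := by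
      simp [Matrix.range_cons, Matrix.range_empty, Set.pair_comm]
    rw [hr] at this
    rw [hP, this]
    simp
  have hPU : P ≤ U q := by
    rw [hP, Submodule.span_le]
    rintro x (rfl | rfl)
    · exact h1
    · exact hXq
  haveI fdP : FiniteDimensional k P := Submodule.finiteDimensional_of_le hPU
  have hsum := Submodule.finrank_sup_add_finrank_inf_eq P G'
  have hsup : finrank k ↥(P ⊔ G') ≤ finrank k (U q) := Submodule.finrank_mono (sup_le hPU hG2)
  have hinf : P ⊓ G' ≠ ⊥ := by
    intro h0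
    rw [h0, finrank_bot] at hsum
    omega
  obtain ⟨h, hh, hh0⟩ := Submodule.exists_mem_ne_zero_of_ne_bot hinf
  obtain ⟨hhP, hhG⟩ := hh
  obtain ⟨β, α, hαβ⟩ := Submodule.mem_span_pair.mp hhP
  obtain ⟨p, -, hgp⟩ := hhG
  have hgp' : g * p = h := hgp
  -- the degree of g
  have hV1 : g * X ^ (m - 1) ∈ U (q - 2) := by
    rw [hgV]
    refine ⟨X ^ (m - 1), mem_degreeLT.mpr ?_, rfl⟩
    rw [degree_X_pow]
    exact_mod_cast (by omega : m - 1 < m)
  have hdeg1 : g.natDegree ≤ b := by
    have h3 := mem_degreeLT.mp (hU1 _ hV1)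
    have h4 : g * X ^ (m - 1) ≠ 0 := mul_ne_zero hg0 (pow_ne_zero _ X_ne_zero)
    have h5 := (natDegree_lt_iff_degree_lt h4).mpr h3
    rw [natDegree_mul hg0 (pow_ne_zero _ X_ne_zero), natDegree_X_pow] at h5
    omega
  obtain ⟨f, hfW, hfd⟩ := hf
  have hf0 : f ≠ 0 := by
    intro h0
    rw [h0, natDegree_zero] at hfd
    omega
  have hdeg2 : b ≤ g.natDegree := by
    have h3 := upX U hU3 d (q - 2 - d) f (hW hfW)
    rw [show d + (q - 2 - d) = q - 2 by omega, hgV] at h3
    obtain ⟨r, hr, hgr⟩ := h3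
    have hgr' : g * r = X ^ (q - 2 - d) * f := hgr
    have hr0 : r ≠ 0 := by
      rintro rfl
      rw [mul_zero] at hgr'
      exact mul_ne_zero (pow_ne_zero _ X_ne_zero) hf0 hgr'.symm
    have h4 := congrArg natDegree hgr'
    rw [natDegree_mul hg0 hr0, natDegree_mul (pow_ne_zero _ X_ne_zero) hf0, natDegree_X_pow,
      hfd] at h4
    have h5 := (natDegree_lt_iff_degree_lt hr0).mpr (mem_degreeLT.mp hr)
    omega
  have hdeg : g.natDegree = b := le_antisymm hdeg1 hdeg2
  have hα : α ≠ 0 := by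
    intro h0
    rw [h0, zero_smul, add_zero] at hαβ
    have hp0 : p ≠ 0 := by
      rintro rfl
      rw [mul_zero] at hgp'
      exact hh0 hgp'.symm
    have h4 := congrArg natDegree (hgp'.trans hαβ.symm)
    rw [natDegree_mul hg0 hp0] at h4
    have h5 : (β • (1 : k[X])).natDegree ≤ 0 := by
      refine (natDegree_smul_le _ _).trans ?_
      simp
    omega
  set c : k := -(β / α) with hc
  have hfrob : (X - C c) ^ q = (X : k[X]) ^ q - C c := by
    obtain ⟨p', n, hp', hcard⟩ : ∃ (p' : ℕ) (n : ℕ+), p'.Prime ∧ Fintype.card k = p' ^ (n : ℕ) ∧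
        CharP k p' := by
      obtain ⟨p', hchar⟩ := CharP.exists k
      haveI := hchar
      obtain ⟨n, h1, h2⟩ := FiniteField.card k p'
      exact ⟨p', n, h1, h2, hchar⟩
    haveI := Fact.mk hp'
    haveI := hcard.2
    have h3 : q = p' ^ (n : ℕ) := hcard.1
    have h4 : c ^ q = c := FiniteField.pow_card c
    rw [h3, sub_pow_char_pow, ← h3, ← C_pow, h4]
  have hgdvd : g ∣ (X - C c) ^ q := by
    refine ⟨C α⁻¹ * p, ?_⟩
    have h5 : g * (C α⁻¹ * p) = C α⁻¹ * h := by
      rw [← hgp']; ring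
    rw [h5, ← hαβ, hfrob, smul_eq_C_mul, smul_eq_C_mul, mul_one, mul_add, ← mul_assoc,
      ← C_mul, ← C_mul, inv_mul_cancel₀ hα, C_1, one_mul]
    have h6 : c = -(α⁻¹ * β) := by rw [hc]; field_simp
    rw [h6, C_neg]
    ring
  obtain ⟨i, -, hi⟩ := (dvd_prime_pow (prime_X_sub_C c) q).mp hgdvd
  have hib : i = b := by
    have h5 := natDegree_eq_of_degree_eq (degree_eq_degree_of_associated hi)
    rw [hdeg, natDegree_pow, natDegree_X_sub_C, mul_one] at h5
    exact h5.symm
  rw [hib] at hi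
  have hdvd1 : ∀ f ∈ Wt, (X - C c) ^ b ∣ f := by
    intro f hf
    have h3 := up U hU2 d (q - 2 - d) (hW hf)
    rw [show d + (q - 2 - d) = q - 2 by omega, hgV] at h3
    obtain ⟨r, -, hgr⟩ := h3
    exact hi.symm.dvd.trans ⟨r, (show g * r = f from hgr).symm⟩
  have hcB : c ∈ B := by
    rw [hB]
    intro f hf
    have h3 : (X - C c) ∣ f := (dvd_pow_self _ (by omega)).trans (hdvd1 f hf)
    exact dvd_iff_isRoot.mp h3
  -- the common divisor
  set Q : k[X] := (X - C c) ^ b * ∏ c' ∈ B.erase c, (X - C c') with hQ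
  have hQdvd : ∀ f ∈ Wt, Q ∣ f := by
    intro f hf
    refine IsCoprime.mul_dvd ?_ (hdvd1 f hf) ?_
    · refine IsCoprime.prod_right fun c' hc' => ?_
      refine IsCoprime.pow_left ?_
      exact isCoprime_X_sub_C_of_isUnit_sub
        (sub_ne_zero.mpr (Finset.ne_of_mem_erase hc').symm).isUnit
    · refine Finset.prod_dvd_of_coprime ?_ fun c' hc' => ?_
      · intro a ha a' ha' haa'
        exact isCoprime_X_sub_C_of_isUnit_sub (sub_ne_zero.mpr haa').isUnit
      · have := (hB c').mp (Finset.mem_of_mem_erase hc') f hf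
        exact dvd_iff_isRoot.mpr this
  have hQmonic : Q.Monic :=
    ((monic_X_sub_C c).pow b).mul (monic_prod_of_monic _ _ fun c' _ => monic_X_sub_C c')
  have hQdeg : Q.natDegree + 1 = b + B.card := by
    rw [hQ, Monic.natDegree_mul ((monic_X_sub_C c).pow b)
      (monic_prod_of_monic _ _ fun c' _ => monic_X_sub_C c'), natDegree_pow, natDegree_X_sub_C,
      mul_one, natDegree_prod_of_monic _ _ fun c' _ => monic_X_sub_C c']
    simp only [natDegree_X_sub_C, Finset.sum_const, smul_eq_mul, mul_one]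
    have := Finset.card_erase_add_one hcB
    omega
  have hQ0 : Q ≠ 0 := hQmonic.ne_zero
  have hQd : Q.natDegree ≤ d := by
    have := natDegree_le_of_dvd (hQdvd f hfW) hf0
    omega
  have hWle : Wt ≤ (degreeLT k (d + 1 - Q.natDegree)).map (LinearMap.mulLeft k Q) := by
    intro f hf
    obtain ⟨r, hr⟩ := hQdvd f hf
    refine ⟨r, mem_degreeLT.mpr ?_, hr.symm⟩
    by_cases hr0 : r = 0
    · rw [hr0, degree_zero]
      exact WithBot.bot_lt_coe _
    · have hf1 : f ≠ 0 := by
        rw [hr]; exact mul_ne_zero hQ0 hr0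
      have h3 := (natDegree_lt_iff_degree_lt hf1).mpr (mem_degreeLT.mp (hU1 _ (hW hf)))
      rw [hr, natDegree_mul hQ0 hr0] at h3
      exact (natDegree_lt_iff_degree_lt hr0).mp (by omega)
  haveI := fd (k := k) (d + 1 - Q.natDegree)
  have hfin := Submodule.finrank_mono hWle
  rw [fr_map Q hQ0] at hfin
  omega

end Pool.Agent.H352.BOG
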